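import Pool.Agent.MP_67db61_an.Mg.Full_Weak

namespace Pool.Agent.Results.MP_67db61_an.Classification

open MeasureTheory

/-- `u` lies in `H¹(ℝⁿ)` with weak gradient `g`. -/
def InH1 {n : ℕ} (u : EuclideanSpace ℝ (Fin n) → ℝ)
    (g : EuclideanSpace ℝ (Fin n) → EuclideanSpace ℝ (Fin n)) : Prop :=
  MemLp u 2 ∧ MemLp g 2 ∧
    ∀ ψ : EuclideanSpace ℝ (Fin n) → ℝ, ContDiff ℝ (⊤ : ℕ∞) ψ → HasCompactSupport ψ →
      ∀ e : EuclideanSpace ℝ (Fin n), ∫ x, u x * fderiv ℝ ψ x e = -∫ x, inner ℝ (g x) e * ψ x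

/-- `(u, v) ∈ H¹ × H¹` solves the saturated system weakly. -/
def IsSolution {n : ℕ} (l1 l2 α β s : ℝ) (u v : EuclideanSpace ℝ (Fin n) → ℝ) : Prop :=
  ∃ gu gv, InH1 u gu ∧ InH1 v gv ∧ ∀ φ g, InH1 φ g →
    ((∫ x, inner ℝ (gu x) (g x)) + l1 * ∫ x, u x * φ x
      = ∫ x, α * u x * (α * u x ^ 2 + β * v x ^ 2)
          / (1 + s * (α * u x ^ 2 + β * v x ^ 2)) * φ x) ∧
    ((∫ x, inner ℝ (gv x) (g x)) + l2 * ∫ x, v x * φ x
      = ∫ x, β * v x * (α * u x ^ 2 + β * v x ^ 2)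
          / (1 + s * (α * u x ^ 2 + β * v x ^ 2)) * φ x)

open Pool.Agent.MP_67db61_an.Cls in
theorem result (n : ℕ) (hn : 3 ≤ n) (l1 l2 α β s : ℝ) (hl1 : 0 < l1) (hl2 : 0 < l2) (hα : 0 < α)
    (hβ : 0 < β) (hs : 0 < s) (hns : l1 ≠ l2 ∨ α ≠ β) :
    (∃ u v : EuclideanSpace ℝ (Fin n) → ℝ,
      IsSolution l1 l2 α β s u v ∧ ¬u =ᵐ[volume] 0 ∧ ¬v =ᵐ[volume] 0) ↔
      s < min (α / l1) (β / l2) := by
  rw [lt_min_iff]
  constructor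
  · rintro ⟨u, v, ⟨gu, gv, hu, hv, H⟩, u0, v0⟩
    have mZ : AEStronglyMeasurable fun x => α * u x ^ 2 + β * v x ^ 2 :=
      ((hu.1.1.pow 2).const_mul α).add ((hv.1.1.pow 2).const_mul β)
    exact ⟨necessity hs hl1 hα hu.1 mZ (fun x => by positivity) (H u gu hu).1 u0,
      necessity hs hl2 hβ hv.1 mZ (fun x => by positivity) (H v gv hv).2 v0⟩
  · rintro ⟨h1, h2⟩
    obtain ⟨d, rfl⟩ : ∃ d, n = d + 1 := ⟨n - 1, by omega⟩
    have p1 : Par s l1 α := ⟨hs, hl1, hα, by rw [lt_div_iff₀ hl1] at h1; linarith⟩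
    have p2 : Par s l2 β := ⟨hs, hl2, hβ, by rw [lt_div_iff₀ hl2] at h2; linarith⟩
    obtain ⟨U, P, W, Q, hU, hW, U0, W0, C, hC⟩ := exists_radial (d := d) (by omega) p1 p2 hns
    obtain ⟨u, v, u0, v0, du, dv, u2, u3, v2, v3, eu, ev⟩ := pack p1 p2 hU hW U0 W0 hC
    have mZ : AEStronglyMeasurable fun x => α * u x ^ 2 + β * v x ^ 2 :=
      ((u2.1.pow 2).const_mul α).add ((v2.1.pow 2).const_mul β)
    have hne : ∀ w : EuclideanSpace ℝ (Fin (d + 1)) → ℝ, Continuous w → w 0 ≠ 0 →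
        ¬w =ᵐ[volume] 0 := fun w cw w0 h =>
      w0 (congrFun ((Continuous.ae_eq_iff_eq volume cw continuous_const).1 h) 0)
    refine ⟨u, v, ⟨gradient u, gradient v,
      ⟨u2, u3, fun ψ hψ hc e => weak_grad (du.of_le one_le_two) hψ hc e⟩,
      ⟨v2, v3, fun ψ hψ hc e => weak_grad (dv.of_le one_le_two) hψ hc e⟩, fun φ g hφ => ⟨?_, ?_⟩⟩,
      hne u du.continuous u0, hne v dv.continuous v0⟩
    · exact weak_H1 du u2 u3 (memLp_rhs hs u2 mZ fun x => by positivity) eu hφ.1 hφ.2.1 hφ.2.2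
    · exact weak_H1 dv v2 v3 (memLp_rhs hs v2 mZ fun x => by positivity) ev hφ.1 hφ.2.1 hφ.2.2

end Pool.Agent.Results.MP_67db61_an.Classification
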