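import Pool.Agent.MP_67db61_an.Mg.Main

namespace Pool.Agent.Results.MP_67db61_an.Exists

open MeasureTheory

theorem result (n : ℕ) (hn : 1 ≤ n) (α β s : ℝ) (hα : 0 < α) (hβ : 0 < β) (hs : 0 < s) :
    ∃ l1 l2 : ℝ, 0 < l1 ∧ 0 < l2 ∧ ∃ u v : EuclideanSpace ℝ (Fin n) → ℝ,
      (∀ x, 0 < u x) ∧ (∀ x, 0 < v x) ∧ ContDiff ℝ 2 u ∧ ContDiff ℝ 2 v ∧
      MemLp u 2 ∧ MemLp (gradient u) 2 ∧ MemLp v 2 ∧ MemLp (gradient v) 2 ∧
      (∀ x, -Laplacian.laplacian u x + l1 * u x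
        = α * u x * (α * u x ^ 2 + β * v x ^ 2) / (1 + s * (α * u x ^ 2 + β * v x ^ 2))) ∧
      (∀ x, -Laplacian.laplacian v x + l2 * v x
        = β * v x * (α * u x ^ 2 + β * v x ^ 2) / (1 + s * (α * u x ^ 2 + β * v x ^ 2))) ∧
      ∀ φ : EuclideanSpace ℝ (Fin n) → ℝ, ContDiff ℝ 1 φ → HasCompactSupport φ →
        ((∫ x, inner ℝ (gradient u x) (gradient φ x)) + l1 * ∫ x, u x * φ x
          = ∫ x, α * u x * (α * u x ^ 2 + β * v x ^ 2)
              / (1 + s * (α * u x ^ 2 + β * v x ^ 2)) * φ x) ∧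
        ((∫ x, inner ℝ (gradient v x) (gradient φ x)) + l2 * ∫ x, v x * φ x
          = ∫ x, β * v x * (α * u x ^ 2 + β * v x ^ 2)
              / (1 + s * (α * u x ^ 2 + β * v x ^ 2)) * φ x) := by
  obtain ⟨k, rfl⟩ : ∃ k, n = k + 1 := ⟨n - 1, by omega⟩
  obtain ⟨l1, l2, h1, h2, u, v, pu, pv, du, dv, u2, u3, v2, v3, eu, ev⟩ :=
    Pool.Agent.MP_67db61_an.main k hα hβ hs
  have cu := du.continuous
  have cv := dv.continuous
  exact ⟨l1, l2, h1, h2, u, v, pu, pv, du, dv, u2, u3, v2, v3, eu, ev, fun φ hφ hc =>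
    ⟨Pool.Agent.MP_67db61_an.weak_of_classical du
      (Continuous.div (by fun_prop) (by fun_prop) fun x => by positivity) eu hφ hc,
    Pool.Agent.MP_67db61_an.weak_of_classical dv
      (Continuous.div (by fun_prop) (by fun_prop) fun x => by positivity) ev hφ hc⟩⟩

end Pool.Agent.Results.MP_67db61_an.Exists
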